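import Pool.Agent.helper93.TV.Spec1

/-!
# Row tv:CC
-/

set_option autoImplicit false

namespace Pool.Agent.helper93.TV

open BigOperators Finset Matrix

theorem CC_aux1 {I V : Type} [Fintype I] [DecidableEq I] [Fintype V] [DecidableEq V]
    (D : FD I V) (F : V → V → V → V → ℂ) (hF : D.UFS F)
    (h1 : ∀ γ β, F (D.lam (D.s1 γ)) γ β (D.lam (D.t γ)) = if γ = β then 1 else 0) (κ κ'' : V) :
    F (D.lam (D.s1 κ)) κ'' κ (D.lam (D.t κ)) = if κ = κ'' then 1 else 0 := by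
  by_cases h : D.s1 κ'' = D.s1 κ ∧ D.t κ'' = D.t κ
  · have := h1 κ'' κ
    rw [h.1, h.2] at this
    rw [this]
    by_cases h2 : κ = κ''
    · rw [if_pos h2, if_pos h2.symm]
    · rw [if_neg h2, if_neg (fun h3 => h2 h3.symm)]
  · have h2 : κ ≠ κ'' := by
      intro h2
      apply h
      rw [h2]
      exact ⟨rfl, rfl⟩
    rw [if_neg h2]
    by_contra h3
    apply h
    obtain ⟨hc, -, -⟩ := hF.uf.conn.supp _ _ _ _ h3
    obtain ⟨c1, c2, c3, c4, c5, c6⟩ := hc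
    rw [D.t_lam] at c1 c6
    exact ⟨c1.symm, c6⟩

theorem CC : CC_stmt := by
  intro hU1 hS1 I V _ _ _ _ D F hF κ κ''
  have h1 := hU1 I V D F hF
  have hS := hS1 I V D F hF (D.eta (D.s1 κ)) κ'' κ (D.lam (D.t κ))
  have e1 : ∑ κ', D.Cm F κ κ' * star (D.Cm F κ' κ'') =
      ∑ κ', D.Cm F κ κ' * star (F (D.eta (D.s1 κ)) (D.lam (D.t κ)) κ' κ'') := by
    refine Finset.sum_congr rfl fun κ' _ => ?_
    by_cases h : D.Cm F κ κ' = 0
    · rw [h, zero_mul, zero_mul]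
    · obtain ⟨hc, -, -⟩ := hF.uf.conn.supp _ _ _ _ h
      obtain ⟨c1, c2, c3, c4, c5, c6⟩ := hc
      rw [D.s1_eta] at c3
      rw [D.t_lam] at c6
      rw [D.s2_lam] at c5
      -- c3 : du (s1 κ) = s1 κ'
      have e : D.Cm F κ' κ'' = F (D.eta (D.s1 κ)) (D.lam (D.t κ)) κ' κ'' := by
        have a1 : D.du (D.s1 κ') = D.s1 κ := by rw [← c3, D.du_du]
        have a2 : D.s2 κ' = D.t κ := c2.symm
        unfold FD.Cm
        rw [a1, a2]
      rw [e]
  rw [e1, ← hS]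
  rw [Finset.sum_eq_single (D.lam (D.s1 κ))]
  · rw [CC_aux1 D F hF h1]
    have e2 : D.Bm F (D.eta (D.s1 κ)) (D.lam (D.s1 κ)) = D.sc F (D.s1 κ) := by
      unfold FD.Bm FD.sc
      rw [D.s2_eta, D.s1_eta]
    rw [e2]
    by_cases h2 : κ = κ''
    · rw [if_pos h2, if_pos h2, mul_one]
    · rw [if_neg h2, if_neg h2, mul_zero]
  · intro α _ hα
    have : F α κ'' κ (D.lam (D.t κ)) = 0 := by
      by_contra h3
      apply hα
      obtain ⟨hc, -, -⟩ := hF.uf.conn.supp _ _ _ _ h3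
      obtain ⟨c1, c2, c3, c4, c5, c6⟩ := hc
      rw [D.s1_lam] at c3
      rw [D.lam_unique α c3, c4]
    rw [this, mul_zero]
  · intro h
    exact absurd (Finset.mem_univ _) h

end Pool.Agent.helper93.TV
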